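import Mathlib
import Pool.Agent.Helper226.RedPoint

/-! Ideals of finite colength and chart data. -/

set_option autoImplicit false

open scoped TensorProduct
open CategoryTheory AlgebraicGeometry

universe u

namespace Pool.Agent.Q84.Elem

open Pool.Agent.Helper226

variable {k : Type u} [Field k] {B : Type u} [CommRing B] [Algebra k B] {d : ℕ}

/-- a basis of a quotient gives a chart datum -/
lemma exists_chart_of_basis (J : Ideal B) {r : ℕ} (bs : Module.Basis (Fin r) k (B ⧸ J))
    (b : Fin r → B) (hb : ∀ i, Ideal.Quotient.mk J (b i) = bs i) :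
    ∃ (c : Chart k b k), c.ker = J := by
  let q : B →ₗ[k] (Fin r → k) := bs.equivFun.toLinearMap ∘ₗ (Ideal.Quotient.mkₐ k J).toLinearMap
  have hq : ∀ x, q x = bs.equivFun (Ideal.Quotient.mk J x) := fun x => rfl
  have hq0 : ∀ x, q x = 0 ↔ x ∈ J := by
    intro x
    rw [hq, LinearEquiv.map_eq_zero_iff]
    exact Ideal.Quotient.eq_zero_iff_mem
  have hqb : ∀ i, q (b i) = Pi.single i 1 := by
    intro i
    rw [hq, hb]
    ext j
    rw [Module.Basis.equivFun_apply, Module.Basis.repr_self, Finsupp.single_apply,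
      Pi.single_apply]
    simp only [eq_comm]
  have hexp : ∀ x, x - ∑ i, q x i • b i ∈ J := by
    intro x
    rw [← hq0, map_sub, map_sum, sub_eq_zero]
    ext j
    simp [hqb, Pi.single_apply]
  refine ⟨⟨q, hqb, ?_⟩, ?_⟩
  · intro x y
    have h1 := J.mul_mem_right y (hexp x)
    rw [← hq0, sub_mul, map_sub, sub_eq_zero] at h1
    rw [h1, Finset.sum_mul, map_sum]
    refine Finset.sum_congr rfl fun i _ => ?_
    rw [smul_mul_assoc, map_smul]
  · ext x
    rw [Chart.mem_ker]
    exact hq0 x

/-- every ideal of colength `r` is the kernel of a chart datum -/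
lemma exists_chart_of_ideal (J : Ideal B) (hfin : Module.Finite k (B ⧸ J)) {r : ℕ}
    (hr : Module.finrank k (B ⧸ J) = r) :
    ∃ (b : Fin r → B) (c : Chart k b k), c.ker = J := by
  let bs : Module.Basis (Fin r) k (B ⧸ J) := Module.finBasisOfFinrankEq k (B ⧸ J) hr
  have hsurj : Function.Surjective (Ideal.Quotient.mk J) := Ideal.Quotient.mk_surjective
  choose b hb using fun i => hsurj (bs i)
  exact ⟨b, exists_chart_of_basis J bs b hb⟩

lemma finite_ker {b : Fin d → B} (c : Chart k b k) : Module.Finite k (B ⧸ c.ker) :=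
  Module.Finite.equiv c.quotEquiv.symm

lemma finrank_ker {b : Fin d → B} (c : Chart k b k) : Module.finrank k (B ⧸ c.ker) = d := by
  rw [c.quotEquiv.finrank_eq]
  simp

lemma sub_mem_ker {b : Fin d → B} (c : Chart k b k) (x : B) :
    x - ∑ i, c.q x i • b i ∈ c.ker := by
  rw [Chart.mem_ker, map_sub, map_sum, sub_eq_zero]
  ext j
  simp [c.q_b, Pi.single_apply]

/-- `I` is an intersection of finitely many pairwise comaximal ideals of colength at most `R`. -/
def Small (k : Type u) [Field k] {B : Type u} [CommRing B] [Algebra k B] (R : ℕ)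
    (I : Ideal B) : Prop :=
  ∃ (m : ℕ) (J : Fin m → Ideal B), (∀ i j, i ≠ j → J i ⊔ J j = ⊤) ∧ I = ⨅ i, J i ∧
    ∀ i, Module.Finite k (B ⧸ J i) ∧ Module.finrank k (B ⧸ J i) ≤ R

lemma small_of_le {R : ℕ} (I : Ideal B) (h : Module.Finite k (B ⧸ I))
    (h2 : Module.finrank k (B ⧸ I) ≤ R) : Small k R I := by
  refine ⟨1, fun _ => I, ?_, ?_, ?_⟩
  · intro i j hij
    exact absurd (Subsingleton.elim i j) hij
  · simp
  · intro _
    exact ⟨h, h2⟩

lemma small_inf {R : ℕ} {I I' : Ideal B} (h : Small k R I) (h' : Small k R I')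
    (hc : I ⊔ I' = ⊤) : Small k R (I ⊓ I') := by
  obtain ⟨m, J, h1, h2, h3⟩ := h
  obtain ⟨m', J', h1', h2', h3'⟩ := h'
  refine ⟨m + m', Fin.append J J', ?_, ?_, ?_⟩
  · intro i j
    refine Fin.addCases (fun i => ?_) (fun i => ?_) i <;>
      refine Fin.addCases (fun j => ?_) (fun j => ?_) j
    · intro hij
      rw [Fin.append_left, Fin.append_left]
      exact h1 i j (fun h => hij (by rw [h]))
    · intro hij
      rw [Fin.append_left, Fin.append_right, eq_top_iff, ← hc]
      refine sup_le_sup ?_ ?_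
      · rw [h2]; exact iInf_le _ _
      · rw [h2']; exact iInf_le _ _
    · intro hij
      rw [Fin.append_left, Fin.append_right, eq_top_iff, ← hc, sup_comm]
      refine sup_le_sup ?_ ?_
      · rw [h2']; exact iInf_le _ _
      · rw [h2]; exact iInf_le _ _
    · intro hij
      rw [Fin.append_right, Fin.append_right]
      exact h1' i j (fun h => hij (by rw [h]))
  · apply le_antisymm
    · refine le_iInf fun i => ?_
      refine Fin.addCases (fun i => ?_) (fun i => ?_) i
      · rw [Fin.append_left]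
        refine inf_le_left.trans ?_
        rw [h2]; exact iInf_le _ _
      · rw [Fin.append_right]
        refine inf_le_right.trans ?_
        rw [h2']; exact iInf_le _ _
    · refine le_inf ?_ ?_
      · rw [h2]
        refine le_iInf fun i => ?_
        refine (iInf_le _ (Fin.castAdd m' i)).trans ?_
        rw [Fin.append_left]
      · rw [h2']
        refine le_iInf fun i => ?_
        refine (iInf_le _ (Fin.natAdd m i)).trans ?_
        rw [Fin.append_right]
  · intro i
    refine Fin.addCases (fun i => ?_) (fun i => ?_) i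
    · rw [Fin.append_left]; exact h3 i
    · rw [Fin.append_right]; exact h3' i

/-- Splitting an ideal of finite colength which is not supported at a point: given an element `x`
of `B` which is neither a unit nor nilpotent modulo `I`. -/
lemma exists_split (I : Ideal B) (hfin : Module.Finite k (B ⧸ I)) (x : B)
    (h1 : I ⊔ Ideal.span {x} ≠ ⊤) (h2 : ∀ n : ℕ, x ^ n ∉ I) :
    ∃ J1 J2 : Ideal B, J1 ⊓ J2 = I ∧ J1 ⊔ J2 = ⊤ ∧ J1 ≠ ⊤ ∧ J2 ≠ ⊤ := by
  let f : (B ⧸ I) →ₗ[k] (B ⧸ I) := LinearMap.mulLeft k (Ideal.Quotient.mk I x)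
  have hf : ∀ (n : ℕ) (y : B), (f ^ n) (Ideal.Quotient.mk I y) = Ideal.Quotient.mk I (x ^ n * y) := by
    intro n
    induction n with
    | zero => intro y; simp
    | succ n ih =>
      intro y
      rw [pow_succ', Module.End.mul_apply, ih]
      change Ideal.Quotient.mk I x * Ideal.Quotient.mk I (x ^ n * y) = _
      rw [← map_mul, ← mul_assoc, ← pow_succ']
  obtain ⟨N, hN⟩ := Filter.eventually_atTop.1 f.eventually_isCompl_ker_pow_range_pow
  set n := N + 1 with hn
  have hc := hN n (by omega)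
  let J2 : Ideal B :=
    { carrier := {y | x ^ n * y ∈ I}
      add_mem' := by
        intro a b ha hb
        simp only [Set.mem_ofPred_eq] at *
        rw [mul_add]
        exact I.add_mem ha hb
      zero_mem' := by simp
      smul_mem' := by
        intro c a ha
        simp only [Set.mem_ofPred_eq] at *
        rw [smul_eq_mul, mul_left_comm]
        exact I.mul_mem_left _ ha }
  have hJ2 : ∀ y, y ∈ J2 ↔ x ^ n * y ∈ I := fun y => Iff.rfl
  have hI2 : I ≤ J2 := fun y hy => I.mul_mem_left _ hy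
  refine ⟨I ⊔ Ideal.span {x ^ n}, J2, ?_, ?_, ?_, ?_⟩
  · apply le_antisymm
    · rintro y ⟨hy1, hy2⟩
      rw [SetLike.mem_coe, Submodule.mem_sup] at hy1
      obtain ⟨i, hi, z, hz, rfl⟩ := hy1
      rw [Ideal.mem_span_singleton'] at hz
      obtain ⟨w, rfl⟩ := hz
      rw [SetLike.mem_coe, hJ2, mul_add] at hy2
      have h3 : x ^ n * (w * x ^ n) ∈ I := by
        have := I.sub_mem hy2 (I.mul_mem_left (x ^ n) hi)
        rwa [add_sub_cancel_left] at this
      have h4 : Ideal.Quotient.mk I (x ^ n * w) ∈ LinearMap.ker (f ^ n) ⊓ LinearMap.range (f ^ n) := by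
        refine ⟨?_, ?_⟩
        · rw [SetLike.mem_coe, LinearMap.mem_ker, hf]
          apply Ideal.Quotient.eq_zero_iff_mem.2
          rw [mul_comm (x ^ n) w]
          exact h3
        · exact ⟨Ideal.Quotient.mk I w, by rw [hf]⟩
      rw [hc.inf_eq_bot, Submodule.mem_bot] at h4
      refine I.add_mem hi ?_
      rw [mul_comm]
      exact Ideal.Quotient.eq_zero_iff_mem.1 h4
    · exact le_inf le_sup_left hI2
  · rw [Ideal.eq_top_iff_one]
    have h3 : Ideal.Quotient.mk I 1 ∈ LinearMap.ker (f ^ n) ⊔ LinearMap.range (f ^ n) := by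
      rw [hc.sup_eq_top]; trivial
    rw [Submodule.mem_sup] at h3
    obtain ⟨u, hu, v, ⟨w, rfl⟩, huv⟩ := h3
    obtain ⟨u, rfl⟩ := Ideal.Quotient.mk_surjective u
    obtain ⟨w, rfl⟩ := Ideal.Quotient.mk_surjective w
    rw [LinearMap.mem_ker, hf] at hu
    rw [hf, ← map_add, Ideal.Quotient.eq] at huv
    have hu2 : u ∈ J2 := (hJ2 u).2 (Ideal.Quotient.eq_zero_iff_mem.1 hu)
    have h4 : (1 : B) = (x ^ n * w - (u + x ^ n * w - 1)) + u := by ring
    rw [h4]
    refine Ideal.add_mem _ (Ideal.mem_sup_left ?_) (Ideal.mem_sup_right hu2)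
    refine Ideal.sub_mem _ ?_ (Ideal.mem_sup_left huv)
    exact Ideal.mem_sup_right (Ideal.mul_mem_right _ _ (Ideal.mem_span_singleton_self _))
  · intro h
    apply h1
    rw [eq_top_iff, ← h]
    refine sup_le_sup_left ?_ I
    rw [Ideal.span_singleton_le_iff_mem]
    exact Ideal.pow_mem_of_mem _ (Ideal.mem_span_singleton_self x) n (by omega)
  · intro h
    have : (1 : B) ∈ J2 := by rw [h]; trivial
    rw [hJ2, mul_one] at this
    exact h2 n this

/-- lengths are additive -/
lemma finrank_add {I J1 J2 : Ideal B} (hfin : Module.Finite k (B ⧸ I)) (h1 : J1 ⊓ J2 = I)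
    (h2 : J1 ⊔ J2 = ⊤) : Module.Finite k (B ⧸ J1) ∧ Module.Finite k (B ⧸ J2) ∧
      Module.finrank k (B ⧸ J1) + Module.finrank k (B ⧸ J2) = Module.finrank k (B ⧸ I) := by
  have hle1 : I ≤ J1 := by rw [← h1]; exact inf_le_left
  have hle2 : I ≤ J2 := by rw [← h1]; exact inf_le_right
  have f1 : Module.Finite k (B ⧸ J1) := Module.Finite.of_surjective
    (Ideal.Quotient.factorₐ k hle1).toLinearMap (Ideal.Quotient.factor_surjective hle1)
  have f2 : Module.Finite k (B ⧸ J2) := Module.Finite.of_surjective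
    (Ideal.Quotient.factorₐ k hle2).toLinearMap (Ideal.Quotient.factor_surjective hle2)
  refine ⟨f1, f2, ?_⟩
  let φ : (B ⧸ I) →ₗ[k] ((B ⧸ J1) × (B ⧸ J2)) :=
    LinearMap.prod (Ideal.Quotient.factorₐ k hle1).toLinearMap
      (Ideal.Quotient.factorₐ k hle2).toLinearMap
  have hφ : ∀ y, φ (Ideal.Quotient.mk I y) = (Ideal.Quotient.mk J1 y, Ideal.Quotient.mk J2 y) :=
    fun y => rfl
  have hbij : Function.Bijective φ := by
    constructor
    · rw [injective_iff_map_eq_zero]
      intro y hy
      obtain ⟨y, rfl⟩ := Ideal.Quotient.mk_surjective y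
      rw [hφ, Prod.mk_eq_zero, Ideal.Quotient.eq_zero_iff_mem, Ideal.Quotient.eq_zero_iff_mem] at hy
      apply Ideal.Quotient.eq_zero_iff_mem.2
      rw [← h1]
      exact hy
    · rintro ⟨y1, y2⟩
      obtain ⟨y1, rfl⟩ := Ideal.Quotient.mk_surjective y1
      obtain ⟨y2, rfl⟩ := Ideal.Quotient.mk_surjective y2
      have h3 : (1 : B) ∈ J1 ⊔ J2 := by rw [h2]; trivial
      obtain ⟨a, ha, b, hb, hab⟩ := Submodule.mem_sup.1 h3
      refine ⟨Ideal.Quotient.mk I (y1 * b + y2 * a), ?_⟩
      rw [hφ, Prod.mk.injEq, Ideal.Quotient.eq, Ideal.Quotient.eq]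
      constructor
      · have : y1 * b + y2 * a - y1 = (y2 - y1) * a + y1 * (a + b - 1) := by ring
        rw [this, hab, sub_self, mul_zero, add_zero]
        exact J1.mul_mem_left _ ha
      · have : y1 * b + y2 * a - y2 = (y1 - y2) * b + y2 * (a + b - 1) := by ring
        rw [this, hab, sub_self, mul_zero, add_zero]
        exact J2.mul_mem_left _ hb
  rw [(LinearEquiv.ofBijective φ hbij).finrank_eq, Module.finrank_prod]

end Pool.Agent.Q84.Elem
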