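import Mathlib
import Pool.Agent.Helper226.LociDefs

/-! Elementary components of the Hilbert scheme of points of affine space. -/

set_option autoImplicit false

open scoped TensorProduct
open CategoryTheory AlgebraicGeometry

universe u

namespace Pool.Agent.Q84.Elem

open Pool.Agent.Helper226

/-- The closed subscheme of affine `n`-space with ideal `I` is supported at a single point: the
polynomials in `I` have exactly one common zero in `k^n` (`k` is algebraically closed). -/
def SupportedAtPoint {k : Type u} [Field k] {n : ℕ} (I : Ideal (MvPolynomial (Fin n) k)) : Prop :=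
  ∃! v : Fin n → k, ∀ f ∈ I, MvPolynomial.eval v f = 0

/-- The set `C` is an elementary component of the Hilbert scheme `𝓗` of `d` points of affine
`n`-space: it is an irreducible component of the underlying space, and there is an open set `U`
such that `C ∩ U` contains a `k`-point and such that, for every `k`-point of the Hilbert scheme
in `C ∩ U`, the corresponding subscheme is supported at a single point. -/
def IsElementary {k : Type u} [Field k] {n d : ℕ}
    (𝓗 : HilbertScheme k (MvPolynomial (Fin n) k) d) (C : Set 𝓗.H) : Prop :=
  C ∈ irreducibleComponents 𝓗.H ∧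
    ∃ U : Set 𝓗.H, IsOpen U ∧ (∃ f : PointsOver k 𝓗.H 𝓗.s k, Set.range f.1 ⊆ C ∩ U) ∧
      ∀ f : PointsOver k 𝓗.H 𝓗.s k, Set.range f.1 ⊆ C ∩ U → SupportedAtPoint (𝓗.idealOf f)

end Pool.Agent.Q84.Elem
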