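import Mathlib
import Pool.Agent.Q84.Elem.Alg

/-! Bound for the dimension of the local ring of the Hilbert scheme at a comaximal intersection
of ideals with few generators. -/

set_option autoImplicit false

open scoped TensorProduct
open CategoryTheory AlgebraicGeometry

universe u

namespace Pool.Agent.Q84.Elem

open Pool.Agent.Helper226

variable {k : Type u} [Field k] {B : Type u} [CommRing B] [Algebra k B] {d : ℕ}

/-- Data adapted to a comaximal decomposition of the kernel of a chart datum. -/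
structure Adapted {b : Fin d → B} (c : Chart k b k) (ι : Type) [DecidableEq ι]
    (T : Type) [Fintype T] where
  blk : Fin d → ι
  e : ι → B
  g : ι → T → B
  h1 : ∀ j l, blk j = l → b j * e l - b j ∈ c.ker
  h2 : ∀ j l, blk j ≠ l → b j * e l ∈ c.ker
  h3 : ∀ l t, g l t * e l ∈ c.ker
  h4 : ∀ l, ∀ w ∈ c.ker, ∃ a : T → B, w = ∑ t, a t * g l t

variable {R' : Type u} [CommRing R'] [Algebra k R']

lemma ad_tangent {b : Fin d → B} (c : Chart k b k) {ι : Type} [DecidableEq ι]
    {T : Type} [Fintype T] (D : Adapted c ι T)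
    (N : Ideal R') (hN : ∀ x ∈ N, ∀ y ∈ N, x * y = 0) (c' : Chart k b R')
    (h0 : ∀ x j, c'.q x j - algebraMap k R' (c.q x j) ∈ N)
    (hv : ∀ t j, c'.q (D.g (D.blk j) t * D.e (D.blk j)) j = 0) (x : B) (j : Fin d) :
    c'.q x j = algebraMap k R' (c.q x j) := by
  have hker : ∀ w ∈ c.ker, ∀ j, c.q w j = 0 := by
    intro w hw j
    rw [Chart.mem_ker] at hw
    rw [hw]; rfl
  have rel : ∀ w ∈ c.ker, ∀ y l, c'.q (w * y) l =
      ∑ j, c'.q w j * algebraMap k R' (c.q (b j * y) l) := by
    intro w hw y l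
    rw [c'.q_mul, Finset.sum_apply]
    refine Finset.sum_congr rfl fun j _ => ?_
    rw [Pi.smul_apply, smul_eq_mul]
    have h3 : c'.q w j ∈ N := by
      have := h0 w j
      rwa [hker w hw, map_zero, sub_zero] at this
    have h4 := hN _ h3 _ (h0 (b j * y) l)
    rw [mul_sub, sub_eq_zero] at h4
    exact h4
  have hbe : ∀ j l i, c.q (b j * D.e l) i = if D.blk j = l then (if j = i then 1 else 0) else 0 := by
    intro j l i
    split_ifs with h h'
    · have h5 := hker _ (D.h1 j l h) i
      rw [map_sub, Pi.sub_apply, sub_eq_zero] at h5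
      rw [h5, c.q_b, h', Pi.single_eq_same]
    · have h5 := hker _ (D.h1 j l h) i
      rw [map_sub, Pi.sub_apply, sub_eq_zero] at h5
      rw [h5, c.q_b, Pi.single_apply, if_neg (Ne.symm h')]
    · exact hker _ (D.h2 j l h) i
  have relE : ∀ w ∈ c.ker, ∀ l i, D.blk i = l → c'.q (w * D.e l) i = c'.q w i := by
    intro w hw l i hi
    rw [rel w hw, Finset.sum_eq_single i]
    · rw [hbe, if_pos hi, if_pos rfl, map_one, mul_one]
    · intro j _ hj
      rw [hbe]
      rw [if_neg hj]
      split_ifs <;> simp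
    · simp
  have hJ : ∀ w ∈ c.ker, ∀ i, c'.q w i = 0 := by
    intro w hw i
    obtain ⟨a, ha⟩ := D.h4 (D.blk i) w hw
    have hw2 : w * D.e (D.blk i) ∈ c.ker := c.ker.mul_mem_right _ hw
    rw [← relE w hw (D.blk i) i rfl, ← relE _ hw2 (D.blk i) i rfl]
    have h6 : w * D.e (D.blk i) * D.e (D.blk i) =
        ∑ t, (D.g (D.blk i) t * D.e (D.blk i)) * (a t * D.e (D.blk i)) := by
      conv_lhs => rw [ha]
      rw [Finset.sum_mul, Finset.sum_mul]
      exact Finset.sum_congr rfl fun t _ => by ring
    rw [h6, map_sum, Finset.sum_apply]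
    refine Finset.sum_eq_zero fun t _ => ?_
    rw [rel _ (D.h3 _ _)]
    refine Finset.sum_eq_zero fun j _ => ?_
    by_cases hj : D.blk j = D.blk i
    · have := hv t j
      rw [hj] at this
      rw [this, zero_mul]
    · have h7 : b j * (a t * D.e (D.blk i)) ∈ c.ker := by
        have := c.ker.mul_mem_left (a t) (D.h2 j (D.blk i) hj)
        rwa [mul_left_comm] at this
      rw [hker _ h7, map_zero, mul_zero]
  have h7 := hJ _ (sub_mem_ker c x) j
  rw [map_sub, Pi.sub_apply, sub_eq_zero] at h7
  rw [h7, map_sum, Finset.sum_apply]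
  simp only [map_smul, Pi.smul_apply, c'.q_b, Pi.single_apply]
  simp [Algebra.smul_def]

theorem ad_stalk_le [Algebra.FiniteType k B] {b : Fin d → B} (c : Chart k b k) {ι : Type}
    [DecidableEq ι] {T : Type} [Fintype T] (D : Adapted c ι T) :
    ringKrullDim ((HilbS k B d).presheaf.stalk
      (chartι k (Idx.single b) (zp c))) ≤ ((Fintype.card T * d : ℕ) : WithBot ℕ∞) := by
  set z := clf c with hz
  have hzq : ∀ x j, z ((uc k b).q x j) = c.q x j := by
    intro x j
    rw [← Chart.map_q, uc_map_clf]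
  have hker : ∀ w ∈ c.ker, ∀ j, c.q w j = 0 := by
    intro w hw j
    rw [Chart.mem_ker] at hw
    rw [hw]; rfl
  set m := RingHom.ker z with hm
  let f : (T × Fin d) → AR k b := fun t => (uc k b).q (D.g (D.blk t.2) t.1 * D.e (D.blk t.2)) t.2
  have hf : ∀ t, z (f t) = 0 := by
    intro t
    change z ((uc k b).q (D.g (D.blk t.2) t.1 * D.e (D.blk t.2)) t.2) = 0
    rw [hzq]
    exact hker _ (D.h3 _ _) _
  refine (stalk_le c f hf ?_).trans (by simp)
  let N : Ideal (AR k b) := Ideal.span (Set.range f) ⊔ m * m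
  let φ : AR k b →ₐ[k] (AR k b ⧸ N) := Ideal.Quotient.mkₐ k N
  let ψ : AR k b →ₐ[k] (AR k b ⧸ N) := (Algebra.ofId k (AR k b ⧸ N)).comp z
  have hφψ : φ = ψ := by
    apply hom_ext_uc
    ext x j
    rw [Chart.map_q, Chart.map_q]
    have := ad_tangent c D (m.map φ) ?_ ((uc k b).map φ) ?_ ?_ x j
    · rw [Chart.map_q] at this
      rw [this]
      change _ = algebraMap k _ (z ((uc k b).q x j))
      rw [hzq]
    · intro x hx y hy
      have h1 : x * y ∈ m.map φ * m.map φ := Ideal.mul_mem_mul hx hy
      rw [← Ideal.map_mul] at h1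
      have h2 : (m * m).map φ ≤ ⊥ := by
        rw [Ideal.map_le_iff_le_comap]
        intro w hw
        rw [Ideal.mem_comap, Ideal.mem_bot]
        exact Ideal.Quotient.eq_zero_iff_mem.2 (Ideal.mem_sup_right hw)
      exact (Ideal.mem_bot).1 (h2 h1)
    · intro x j
      rw [Chart.map_q, ← hzq, ← φ.commutes, ← map_sub]
      apply Ideal.mem_map_of_mem
      rw [hm, RingHom.mem_ker, map_sub, z.commutes]
      simp
    · intro t j
      rw [Chart.map_q]
      exact Ideal.Quotient.eq_zero_iff_mem.2
        (Ideal.mem_sup_left (Ideal.subset_span ⟨(t, j), rfl⟩))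
  intro x hx
  have : φ x = 0 := by
    rw [hφψ]
    change algebraMap k _ (z x) = 0
    rw [RingHom.mem_ker.1 hx, map_zero]
  exact Ideal.Quotient.eq_zero_iff_mem.1 this

/-- changing the chart does not change the point -/
lemma chartι_zp_eq {b b' : Fin d → B} (c : Chart k b k) (c' : Chart k b' k)
    (h : c.ker = c'.ker) :
    chartι k (Idx.single b) (zp c) = chartι k (Idx.single b') (zp c') := by
  rw [← mem_range_mor_iff, ← mor_eq_of_ideal_eq c c' (Chart.ideal_eq_of_ker_eq h),
    mem_range_mor_iff]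

/-- generators of the kernel -/
noncomputable def genOf {n : ℕ} {b : Fin d → MvPolynomial (Fin n) k} (c : Chart k b k) :
    Option (Fin n × Fin d) → MvPolynomial (Fin n) k
  | none => 1 - ∑ i, c.q 1 i • b i
  | some p => MvPolynomial.X p.1 * b p.2 - ∑ i, c.q (MvPolynomial.X p.1 * b p.2) i • b i

lemma genOf_mem {n : ℕ} {b : Fin d → MvPolynomial (Fin n) k} (c : Chart k b k)
    (p : Option (Fin n × Fin d)) : genOf c p ∈ c.ker := by
  cases p with
  | none => exact sub_mem_ker c 1
  | some p => exact sub_mem_ker c _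

lemma mem_span_genOf {n : ℕ} {b : Fin d → MvPolynomial (Fin n) k} (c : Chart k b k)
    (x : MvPolynomial (Fin n) k) :
    x - ∑ i, c.q x i • b i ∈ Ideal.span (Set.range (genOf c)) := by
  induction x using MvPolynomial.induction_on with
  | C a =>
    have h1 : (MvPolynomial.C a : MvPolynomial (Fin n) k) - ∑ i, c.q (MvPolynomial.C a) i • b i =
        a • genOf c none := by
      have h2 : (MvPolynomial.C a : MvPolynomial (Fin n) k) = a • 1 := by
        rw [MvPolynomial.smul_eq_C_mul, mul_one]
      rw [h2, map_smul]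
      simp only [genOf, Pi.smul_apply, smul_sub, Finset.smul_sum, smul_eq_mul, mul_smul]
    rw [h1, MvPolynomial.smul_eq_C_mul]
    exact Ideal.mul_mem_left _ _ (Ideal.subset_span ⟨none, rfl⟩)
  | add p q hp hq =>
    have : p + q - ∑ i, c.q (p + q) i • b i =
        (p - ∑ i, c.q p i • b i) + (q - ∑ i, c.q q i • b i) := by
      rw [map_add]
      simp only [Pi.add_apply, add_smul, Finset.sum_add_distrib]
      ring
    rw [this]
    exact Ideal.add_mem _ hp hq
  | mul_X p i hp =>
    have h1 : p * MvPolynomial.X i - ∑ l, c.q (p * MvPolynomial.X i) l • b l =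
        MvPolynomial.X i * (p - ∑ j, c.q p j • b j) +
          ∑ j, c.q p j • genOf c (some (i, j)) := by
      rw [c.q_mul]
      simp only [genOf, smul_sub, Finset.sum_sub_distrib, Finset.sum_apply, Pi.smul_apply,
        smul_eq_mul, Finset.sum_smul, Finset.smul_sum, mul_smul, mul_sub, Finset.mul_sum]
      rw [Finset.sum_comm]
      simp only [mul_smul_comm]
      have h2 : ∀ j, b j * MvPolynomial.X i = MvPolynomial.X i * b j := fun j => mul_comm _ _
      simp only [h2]
      ring
    rw [h1]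
    refine Ideal.add_mem _ (Ideal.mul_mem_left _ _ hp) (Ideal.sum_mem _ fun j _ => ?_)
    rw [MvPolynomial.smul_eq_C_mul]
    exact Ideal.mul_mem_left _ _ (Ideal.subset_span ⟨_, rfl⟩)

lemma ker_eq_span_genOf {n : ℕ} {b : Fin d → MvPolynomial (Fin n) k} (c : Chart k b k) :
    c.ker = Ideal.span (Set.range (genOf c)) := by
  apply le_antisymm
  · intro x hx
    have h1 := mem_span_genOf c x
    rw [Chart.mem_ker] at hx
    rw [hx] at h1
    simpa using h1
  · rw [Ideal.span_le]
    rintro _ ⟨p, rfl⟩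
    exact genOf_mem c p

/-- ideals of colength at most `R` have at most `n R + 1` generators -/
lemma exists_gens {n R : ℕ} (J : Ideal (MvPolynomial (Fin n) k))
    (hfin : Module.Finite k (MvPolynomial (Fin n) k ⧸ J))
    (hR : Module.finrank k (MvPolynomial (Fin n) k ⧸ J) ≤ R) :
    ∃ g : Option (Fin n × Fin R) → MvPolynomial (Fin n) k, J = Ideal.span (Set.range g) := by
  obtain ⟨b, c, hc⟩ := exists_chart_of_ideal J hfin rfl
  let s : Fin (Module.finrank k (MvPolynomial (Fin n) k ⧸ J)) → Fin R := Fin.castLE hR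
  have hs : Function.Injective s := Fin.castLE_injective hR
  let s' : Option (Fin n × Fin (Module.finrank k (MvPolynomial (Fin n) k ⧸ J))) →
      Option (Fin n × Fin R) := Option.map (Prod.map id s)
  have hs' : Function.Injective s' := Option.map_injective (Function.injective_id.prodMap hs)
  refine ⟨Function.extend s' (genOf c) 0, hc.symm.trans ((ker_eq_span_genOf c).trans ?_)⟩
  apply le_antisymm
  · rw [Ideal.span_le]
    rintro _ ⟨p, rfl⟩
    apply Ideal.subset_span
    exact ⟨s' p, hs'.extend_apply _ _ _⟩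
  · rw [Ideal.span_le]
    rintro _ ⟨p, rfl⟩
    by_cases h : ∃ q, s' q = p
    · obtain ⟨q, rfl⟩ := h
      rw [hs'.extend_apply]
      exact Ideal.subset_span ⟨q, rfl⟩
    · rw [Function.extend_apply' _ _ _ h]
      exact Ideal.zero_mem _

/-- a small ideal has an adapted chart -/
lemma exists_adapted {n R : ℕ} (I : Ideal (MvPolynomial (Fin n) k))
    (hI : Module.Finite k (MvPolynomial (Fin n) k ⧸ I)) (h : Small k R I) :
    ∃ (b : Fin (Module.finrank k (MvPolynomial (Fin n) k ⧸ I)) → MvPolynomial (Fin n) k)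
      (c : Chart k b k) (m : ℕ), c.ker = I ∧
        Nonempty (Adapted c (Fin m) (Option (Fin n × Fin R))) := by
  classical
  obtain ⟨m, J, hJ, hIJ, hfin⟩ := h
  have hcop : Pairwise (Function.onFun IsCoprime J) := by
    intro i j hij
    exact Ideal.isCoprime_iff_sup_eq.2 (hJ i j hij)
  let E := Ideal.quotientInfRingEquivPiQuotient J hcop
  have hE : ∀ x i, E (Ideal.Quotient.mk _ x) i = Ideal.Quotient.mk (J i) x := fun x i => rfl
  let φl : (MvPolynomial (Fin n) k ⧸ I) →ₗ[k] (∀ i, MvPolynomial (Fin n) k ⧸ J i) :=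
    LinearMap.pi fun i => (Ideal.Quotient.factorₐ k
          (show I ≤ J i by rw [hIJ]; exact iInf_le _ i)).toLinearMap
  have hφl : Function.Bijective φl := by
    have h1 : (φl : (MvPolynomial (Fin n) k ⧸ I) → (∀ i, MvPolynomial (Fin n) k ⧸ J i)) =
        E ∘ (Ideal.quotEquivOfEq hIJ) := by
      funext y
      obtain ⟨y, rfl⟩ := Ideal.Quotient.mk_surjective y
      rfl
    rw [h1]
    exact (E.bijective.comp (Ideal.quotEquivOfEq hIJ).bijective)
  let El : (MvPolynomial (Fin n) k ⧸ I) ≃ₗ[k] (∀ i, MvPolynomial (Fin n) k ⧸ J i) :=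
    LinearEquiv.ofBijective φl hφl
  have hEl : ∀ x i, El (Ideal.Quotient.mk I x) i = Ideal.Quotient.mk (J i) x := fun x i => rfl
  have hf : ∀ i, Module.Finite k (MvPolynomial (Fin n) k ⧸ J i) := fun i => (hfin i).1
  let bs : ∀ i, Module.Basis (Fin (Module.finrank k (MvPolynomial (Fin n) k ⧸ J i))) k
    (MvPolynomial (Fin n) k ⧸ J i) := fun i => Module.finBasis k _
  let pb := Pi.basis bs
  have hcard : Fintype.card (Σ i, Fin (Module.finrank k (MvPolynomial (Fin n) k ⧸ J i))) =
      Module.finrank k (MvPolynomial (Fin n) k ⧸ I) := by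
    rw [El.finrank_eq, Module.finrank_eq_card_basis pb]
  let σ := Fintype.equivFinOfCardEq hcard
  let bb := (pb.map El.symm).reindex σ
  choose b hb using fun j => Ideal.Quotient.mk_surjective (I := I) (bb j)
  obtain ⟨c, hc⟩ := exists_chart_of_basis I bb b hb
  choose e he using fun l : Fin m => El.surjective (Pi.single l 1)
  choose e' he' using fun l => Ideal.Quotient.mk_surjective (I := I) (e l)
  choose g hg using fun i => exists_gens (J i) (hfin i).1 (hfin i).2
  have hmemI : ∀ x, x ∈ I ↔ ∀ i, x ∈ J i := by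
    intro x
    rw [hIJ, Submodule.mem_iInf]
  have hel : ∀ l, e' l - 1 ∈ J l := by
    intro l
    rw [← Ideal.Quotient.eq, ← hEl, he', he, Pi.single_eq_same, map_one]
  have hel2 : ∀ l i, i ≠ l → e' l ∈ J i := by
    intro l i hi
    rw [← Ideal.Quotient.eq_zero_iff_mem, ← hEl, he', he, Pi.single_eq_of_ne hi]
  have hbl : ∀ j i, i ≠ (σ.symm j).1 → b j ∈ J i := by
    intro j i hi
    rw [← Ideal.Quotient.eq_zero_iff_mem, ← hEl, hb]
    simp only [bb, Module.Basis.reindex_apply, Module.Basis.map_apply,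
      LinearEquiv.apply_symm_apply, pb, Pi.basis_apply]
    rw [Pi.single_eq_of_ne hi]
  refine ⟨b, c, m, hc, ⟨⟨fun j => (σ.symm j).1, e', g, ?_, ?_, ?_, ?_⟩⟩⟩
  · intro j l hl
    rw [hc, hmemI]
    intro i
    by_cases hi : i = l
    · subst hi
      have : b j * e' i - b j = b j * (e' i - 1) := by ring
      rw [this]
      exact Ideal.mul_mem_left _ _ (hel i)
    · have h5 := hbl j i (by rw [hl]; exact hi)
      exact Ideal.sub_mem _ (Ideal.mul_mem_right _ _ h5) h5
  · intro j l hl
    rw [hc, hmemI]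
    intro i
    by_cases hi : i = l
    · subst hi
      exact Ideal.mul_mem_right _ _ (hbl j i (Ne.symm hl))
    · exact Ideal.mul_mem_left _ _ (hel2 l i hi)
  · intro l t
    rw [hc, hmemI]
    intro i
    by_cases hi : i = l
    · subst hi
      apply Ideal.mul_mem_right
      rw [hg i]
      exact Ideal.subset_span ⟨t, rfl⟩
    · exact Ideal.mul_mem_left _ _ (hel2 l i hi)
  · intro l w hw
    rw [hc, hmemI] at hw
    have h6 := hw l
    rw [hg l] at h6
    obtain ⟨a, ha⟩ := (Ideal.mem_span_range_iff_exists_fun).1 h6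
    exact ⟨a, ha.symm⟩

/-- dimension bound at small ideals -/
theorem small_stalk_le {n R : ℕ} {b : Fin d → MvPolynomial (Fin n) k} (c : Chart k b k)
    (h : Small k R c.ker) :
    ringKrullDim ((HilbS k (MvPolynomial (Fin n) k) d).presheaf.stalk
      (chartι k (Idx.single b) (zp c))) ≤ (((n * R + 1) * d : ℕ) : WithBot ℕ∞) := by
  have key := exists_adapted c.ker (finite_ker c) h
  rw [finrank_ker c] at key
  obtain ⟨b', c', m, hc', ⟨D⟩⟩ := key
  rw [chartι_zp_eq c c' hc'.symm]
  refine (ad_stalk_le c' D).trans ?_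
  simp

end Pool.Agent.Q84.Elem
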