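import Mathlib
import Pool.Agent.Q84.Elem.Stalk
import Pool.Agent.Helper226.VCFam

/-! Unions of disjoint subschemes, in families. -/

set_option autoImplicit false

open scoped TensorProduct
open CategoryTheory AlgebraicGeometry

universe u

namespace Pool.Agent.Q84.Elem

open Pool.Agent.Helper226

variable {k : Type u} [Field k] {B : Type u} [CommRing B] [Algebra k B] {d1 d2 : ℕ}
variable {A : Type u} [CommRing A] [Algebra k A] {A' : Type u} [CommRing A'] [Algebra k A']
variable {b1 : Fin d1 → B} {b2 : Fin d2 → B}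

/-- the pair of coordinate functionals -/
noncomputable def QQ (c1 : Chart k b1 A) (c2 : Chart k b2 A) (x : B) : Fin (d1 + d2) → A :=
  Fin.append (c1.q x) (c2.q x)

lemma QQ_map (c1 : Chart k b1 A) (c2 : Chart k b2 A) (g : A →ₐ[k] A') (x : B) (j) :
    QQ (c1.map g) (c2.map g) x j = g (QQ c1 c2 x j) := by
  unfold QQ
  refine Fin.addCases (fun i => ?_) (fun i => ?_) j
  · rw [Fin.append_left, Fin.append_left]; rfl
  · rw [Fin.append_right, Fin.append_right]; rfl

/-- the transition matrix -/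
noncomputable def MM (c1 : Chart k b1 A) (c2 : Chart k b2 A) (b : Fin (d1 + d2) → B) :
    Matrix (Fin (d1 + d2)) (Fin (d1 + d2)) A :=
  Matrix.of fun i j => QQ c1 c2 (b i) j

lemma MM_map (c1 : Chart k b1 A) (c2 : Chart k b2 A) (g : A →ₐ[k] A')
    (b : Fin (d1 + d2) → B) : MM (c1.map g) (c2.map g) b = (MM c1 c2 b).map g := by
  ext i j
  simp [MM, QQ_map]

/-- the linear extension -/
noncomputable def LL (c1 : Chart k b1 A) (c2 : Chart k b2 A) :
    A ⊗[k] B →ₗ[A] (Fin (d1 + d2) → A) :=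
  LinearMap.pi fun j => Fin.addCases (motive := fun _ => A ⊗[k] B →ₗ[A] A)
    (fun i => LinearMap.proj i ∘ₗ c1.L) (fun i => LinearMap.proj i ∘ₗ c2.L) j

lemma LL_apply (c1 : Chart k b1 A) (c2 : Chart k b2 A) (x : A ⊗[k] B) :
    LL c1 c2 x = Fin.append (c1.L x) (c2.L x) := by
  ext j
  unfold LL
  rw [LinearMap.pi_apply]
  refine Fin.addCases (fun i => ?_) (fun i => ?_) j
  · rw [Fin.append_left, Fin.addCases_left]; rfl
  · rw [Fin.append_right, Fin.addCases_right]; rfl

lemma LL_tmul (c1 : Chart k b1 A) (c2 : Chart k b2 A) (x : B) :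
    LL c1 c2 (1 ⊗ₜ x) = QQ c1 c2 x := by
  rw [LL_apply, QQ]
  simp

lemma append_eq_zero {α : Type u} [Zero α] (u : Fin d1 → α) (v : Fin d2 → α) :
    Fin.append u v = 0 ↔ u = 0 ∧ v = 0 := by
  constructor
  · intro h
    refine ⟨?_, ?_⟩
    · ext i
      have := congrFun h (Fin.castAdd d2 i)
      rw [Fin.append_left] at this
      exact this
    · ext i
      have := congrFun h (Fin.natAdd d1 i)
      rw [Fin.append_right] at this
      exact this
  · rintro ⟨rfl, rfl⟩
    ext j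
    refine Fin.addCases (fun i => ?_) (fun i => ?_) j
    · rw [Fin.append_left]; rfl
    · rw [Fin.append_right]; rfl

lemma exists_sum_chart (c1 : Chart k b1 A) (c2 : Chart k b2 A) (b : Fin (d1 + d2) → B)
    (h : IsUnit (MM c1 c2 b).det) :
    ∃ c : Chart k b A, ∀ x, Matrix.vecMul (c.q x) (MM c1 c2 b) = QQ c1 c2 x := by
  set M := MM c1 c2 b with hM
  have hMi : M * M⁻¹ = 1 := Matrix.mul_nonsing_inv _ h
  have hMi' : M⁻¹ * M = 1 := Matrix.nonsing_inv_mul _ h
  let L' : A ⊗[k] B →ₗ[A] (Fin (d1 + d2) → A) := (Matrix.vecMulLinear M⁻¹) ∘ₗ LL c1 c2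
  have hL'a : ∀ x, L' x = Matrix.vecMul (LL c1 c2 x) M⁻¹ := fun x => rfl
  have hLM : ∀ x, Matrix.vecMul (L' x) M = LL c1 c2 x := by
    intro x
    rw [hL'a, Matrix.vecMul_vecMul, hMi', Matrix.vecMul_one]
  have hL0 : ∀ x, L' x = 0 ↔ c1.L x = 0 ∧ c2.L x = 0 := by
    intro x
    rw [← append_eq_zero, ← LL_apply]
    constructor
    · intro h0
      rw [← hLM, h0, Matrix.zero_vecMul]
    · intro h0
      rw [hL'a, h0, Matrix.zero_vecMul]
  have hbb : ∀ i, L' (1 ⊗ₜ b i) = Pi.single i 1 := by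
    intro i
    rw [hL'a, LL_tmul]
    have h1 : QQ c1 c2 (b i) = Matrix.vecMul (Pi.single i 1) M := by
      ext j
      simp [hM, MM]
    rw [h1, Matrix.vecMul_vecMul, hMi, Matrix.vecMul_one]
  have hid : ∀ x y, L' x = 0 → L' (x * y) = 0 := by
    intro x y hx
    rw [hL0] at hx ⊢
    rw [mul_comm]
    exact ⟨c1.ideal.mul_mem_left y hx.1, c2.ideal.mul_mem_left y hx.2⟩
  refine ⟨Chart.mk' b L' hbb hid, ?_⟩
  intro x
  have h2 := Chart.mk'_L L' hbb hid (1 ⊗ₜ x)
  rw [Chart.L_tmul, one_smul] at h2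
  rw [h2, hLM, LL_tmul]

section field

variable {b : Fin (d1 + d2) → B}

lemma QQ_eq_zero (c1 : Chart k b1 k) (c2 : Chart k b2 k) (x : B) :
    QQ c1 c2 x = 0 ↔ x ∈ c1.ker ⊓ c2.ker := by
  rw [QQ, append_eq_zero]
  rw [Ideal.mem_inf, Chart.mem_ker, Chart.mem_ker]

lemma ker_sum_chart (c1 : Chart k b1 k) (c2 : Chart k b2 k) (c : Chart k b k)
    (h : IsUnit (MM c1 c2 b).det)
    (hc : ∀ x, Matrix.vecMul (c.q x) (MM c1 c2 b) = QQ c1 c2 x) : c.ker = c1.ker ⊓ c2.ker := by
  ext x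
  rw [← QQ_eq_zero, Chart.mem_ker, ← hc]
  constructor
  · intro h0
    rw [h0, Matrix.zero_vecMul]
  · intro h0
    have := congrArg (fun v => Matrix.vecMul v (MM c1 c2 b)⁻¹) h0
    simpa [Matrix.vecMul_vecMul, Matrix.mul_nonsing_inv _ h] using this

lemma isUnit_det (c1 : Chart k b1 k) (c2 : Chart k b2 k) (c : Chart k b k)
    (hc : c.ker = c1.ker ⊓ c2.ker) : IsUnit (MM c1 c2 b).det := by
  rw [isUnit_iff_ne_zero]
  intro h
  obtain ⟨v, hv, hv2⟩ := Matrix.exists_vecMul_eq_zero_iff.2 h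
  apply hv
  have h1 : QQ c1 c2 (∑ i, v i • b i) = 0 := by
    rw [← hv2]
    ext j
    simp only [QQ, Matrix.vecMul, dotProduct, MM, Matrix.of_apply]
    refine Fin.addCases (fun l => ?_) (fun l => ?_) j
    · simp [Fin.append_left]
    · simp [Fin.append_right]
  rw [QQ_eq_zero, ← hc, Chart.mem_ker] at h1
  ext j
  have := congrFun h1 j
  simpa [c.q_b, Pi.single_apply] using this

end field

/-- comaximality from lengths -/
lemma sup_eq_top_of_finrank {J1 J2 : Ideal B} (h1 : Module.Finite k (B ⧸ J1))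
    (h2 : Module.Finite k (B ⧸ J2))
    (h : Module.finrank k (B ⧸ J1) + Module.finrank k (B ⧸ J2) =
      Module.finrank k (B ⧸ (J1 ⊓ J2))) : J1 ⊔ J2 = ⊤ := by
  let φ : (B ⧸ (J1 ⊓ J2)) →ₗ[k] ((B ⧸ J1) × (B ⧸ J2)) :=
    LinearMap.prod (Ideal.Quotient.factorₐ k (inf_le_left : J1 ⊓ J2 ≤ J1)).toLinearMap
      (Ideal.Quotient.factorₐ k (inf_le_right : J1 ⊓ J2 ≤ J2)).toLinearMap
  have hφ : ∀ y, φ (Ideal.Quotient.mk _ y) = (Ideal.Quotient.mk J1 y, Ideal.Quotient.mk J2 y) :=
    fun y => rfl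
  have hinj : Function.Injective φ := by
    rw [injective_iff_map_eq_zero]
    intro y hy
    obtain ⟨y, rfl⟩ := Ideal.Quotient.mk_surjective y
    rw [hφ, Prod.mk_eq_zero, Ideal.Quotient.eq_zero_iff_mem, Ideal.Quotient.eq_zero_iff_mem] at hy
    exact Ideal.Quotient.eq_zero_iff_mem.2 hy
  have hf : Module.Finite k (B ⧸ (J1 ⊓ J2)) := Module.Finite.of_injective φ hinj
  have hsurj : Function.Surjective φ := by
    rw [← LinearMap.injective_iff_surjective_of_finrank_eq_finrank]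
    · exact hinj
    · rw [Module.finrank_prod, h]
  obtain ⟨y, hy⟩ := hsurj (1, 0)
  obtain ⟨y, rfl⟩ := Ideal.Quotient.mk_surjective y
  rw [hφ, Prod.mk.injEq, Ideal.Quotient.eq_zero_iff_mem] at hy
  obtain ⟨hy1, hy2⟩ := hy
  have hy3 : y - 1 ∈ J1 := by
    rw [← Ideal.Quotient.eq, hy1, map_one]
  rw [Ideal.eq_top_iff_one]
  have : (1 : B) = -(y - 1) + y := by ring
  rw [this]
  exact Ideal.add_mem _ (Ideal.mem_sup_left (neg_mem hy3)) (Ideal.mem_sup_right hy2)

/-- **Moving one of two disjoint subschemes.** -/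
theorem sum_open {b : Fin (d1 + d2) → B} (c1 : Chart k b1 k) (c2 : Chart k b2 k)
    (c : Chart k b k) (hc : c.ker = c1.ker ⊓ c2.ker) (U : Set (HilbS k B (d1 + d2)))
    (hU : IsOpen U) (hcU : chartι k (Idx.single b) (zp c) ∈ U) :
    ∃ V : Set (HilbS k B d1), IsOpen V ∧ chartι k (Idx.single b1) (zp c1) ∈ V ∧
      ∀ (b1' : Fin d1 → B) (c1' : Chart k b1' k), chartι k (Idx.single b1') (zp c1') ∈ V →
        c1'.ker ⊔ c2.ker = ⊤ ∧ ∀ (b' : Fin (d1 + d2) → B) (c' : Chart k b' k),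
          c'.ker = c1'.ker ⊓ c2.ker → chartι k (Idx.single b') (zp c') ∈ U := by
  let u := uc k b1
  let c2A := c2.map (Algebra.ofId k (AR k b1))
  let δ := (MM u c2A b).det
  let A1 := Localization.Away δ
  let j : AR k b1 →ₐ[k] A1 := IsScalarTower.toAlgHom k (AR k b1) A1
  have hu : IsUnit (MM (u.map j) (c2A.map j) b).det := by
    rw [MM_map, ← AlgHom.mapMatrix_apply, ← AlgHom.map_det]
    exact IsLocalization.Away.algebraMap_isUnit δ
  obtain ⟨ct, hct⟩ := exists_sum_chart (u.map j) (c2A.map j) b hu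
  -- points of the localisation
  have hpt : ∀ g : A1 →ₐ[k] k, ∀ c1'' : Chart k b1 k, g.comp j = clf c1'' →
      (ct.map g).ker = c1''.ker ⊓ c2.ker := by
    intro g c1'' hg
    have e1 : (u.map j).map g = c1'' := by
      rw [Chart.map_map, hg]
      exact uc_map_clf c1''
    have e2 : (c2A.map j).map g = c2 := by
      change ((c2.map _).map j).map g = c2
      rw [Chart.map_map, Chart.map_map]
      have : (g.comp j).comp (Algebra.ofId k (AR k b1)) = AlgHom.id k k := by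
        ext
      rw [this, Chart.map_id]
    apply ker_sum_chart
    · rw [← e1, ← e2, MM_map, ← AlgHom.mapMatrix_apply, ← AlgHom.map_det]
      exact hu.map g
    · intro x
      rw [← e1, ← e2, MM_map]
      ext i
      rw [QQ_map, ← hct]
      simp [Matrix.vecMul, dotProduct]
  have hlift : ∀ c1'' : Chart k b1 k, clf c1'' δ ≠ 0 → ∃ g : A1 →ₐ[k] k, g.comp j = clf c1'' := by
    intro c1'' hne
    refine ⟨IsLocalization.liftAlgHom (M := Submonoid.powers δ) (f := clf c1'') ?_, ?_⟩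
    · rintro ⟨_, n, rfl⟩
      rw [map_pow]
      exact (IsUnit.mk0 _ hne).pow n
    · ext x
      simp [j]
  let jS : Spec (CommRingCat.of A1) ⟶ Spec (CommRingCat.of (AR k b1)) :=
    Spec.map (CommRingCat.ofHom (algebraMap (AR k b1) A1))
  have hjS : Topology.IsOpenEmbedding jS := PrimeSpectrum.localization_away_isOpenEmbedding A1 δ
  have hψ : Topology.IsOpenEmbedding (chartι k (Idx.single b1)) :=
    (chartι k (Idx.single b1)).isOpenEmbedding
  let pg : (A1 →ₐ[k] k) → Spec (CommRingCat.of A1) := fun g =>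
    (⟨RingHom.ker g, RingHom.ker_isPrime g⟩ : PrimeSpectrum A1)
  have hpg : ∀ g c1'', g.comp j = clf c1'' → jS (pg g) = zp c1'' := by
    intro g c1'' hg
    apply PrimeSpectrum.ext
    rw [zp_asIdeal]
    ext x
    change algebraMap (AR k b1) A1 x ∈ RingHom.ker g ↔ _
    rw [RingHom.mem_ker, RingHom.mem_ker, ← hg]
    rfl
  have hmor : ∀ g, mor ct (pg g) = chartι k (Idx.single b) (zp (ct.map g)) := by
    intro g
    rw [← mem_range_mor_iff]
    exact mor_point ct g (pg g) rfl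
  refine ⟨chartι k (Idx.single b1) '' (jS '' (mor ct ⁻¹' U)), ?_, ?_, ?_⟩
  · exact hψ.isOpenMap _ (hjS.isOpenMap _ (hU.preimage (mor ct).continuous))
  · have hne : clf c1 δ ≠ 0 := by
      have h3 := isUnit_det c1 c2 c hc
      have e1 : u.map (clf c1) = c1 := uc_map_clf c1
      have e2 : c2A.map (clf c1) = c2 := by
        change (c2.map _).map _ = c2
        rw [Chart.map_map]
        have : (clf c1).comp (Algebra.ofId k (AR k b1)) = AlgHom.id k k := by
          ext
        rw [this, Chart.map_id]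
      rw [← e1, ← e2, MM_map, ← AlgHom.mapMatrix_apply, ← AlgHom.map_det] at h3
      exact h3.ne_zero
    obtain ⟨g, hg⟩ := hlift c1 hne
    refine ⟨_, ⟨pg g, ?_, rfl⟩, ?_⟩
    · rw [Set.mem_preimage, hmor, chartι_zp_eq (ct.map g) c ((hpt g c1 hg).trans hc.symm)]
      exact hcU
    · rw [hpg g c1 hg]
  · rintro b1' c1' ⟨_, ⟨y, hy, rfl⟩, hy2⟩
    have hloc : chartι k (Idx.single b1) (jS y) ∈ (hilb k B d1).locus (fun I => I = c1'.ker) := by
      rw [hy2]
      exact chartι_zp_mem_locus c1' _ rfl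
    obtain ⟨c1'', hk, ho⟩ := exists_chart_in (fun I => I = c1'.ker) (jS y) hloc
    have hne : clf c1'' δ ≠ 0 := by
      intro h0
      have h4 : δ ∈ (jS y).asIdeal := by
        rw [ho, zp_asIdeal, RingHom.mem_ker]
        exact h0
      have h5 : algebraMap (AR k b1) A1 δ ∈ y.asIdeal := h4
      exact y.isPrime.ne_top (Ideal.eq_top_of_isUnit_mem _ h5
        (IsLocalization.Away.algebraMap_isUnit δ))
    obtain ⟨g, hg⟩ := hlift c1'' hne
    have hyg : y = pg g := by
      apply hjS.injective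
      rw [ho, hpg g c1'' hg]
    have hkk := hpt g c1'' hg
    rw [hk] at hkk
    refine ⟨?_, ?_⟩
    · apply sup_eq_top_of_finrank (k := k) (finite_ker c1') (finite_ker c2)
      rw [← hkk, finrank_ker, finrank_ker, finrank_ker]
    · intro b' c' hc'
      rw [chartι_zp_eq c' (ct.map g) (hc'.trans hkk.symm), ← hmor, ← hyg]
      exact hy

end Pool.Agent.Q84.Elem
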