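import Mathlib
import Pool.Agent.Q84.Elem.Sum
import Pool.Agent.Q84.Elem.Defs
import Pool.Agent.Helper226.Smoothable

/-! If there are no elementary components of large length, then the small ideals are dense. -/

set_option autoImplicit false

open scoped TensorProduct
open CategoryTheory AlgebraicGeometry

universe u

namespace Pool.Agent.Q84.Elem

open Pool.Agent.Helper226

variable {k : Type u} [Field k]

/-- the version of `sum_open` with a free length -/
theorem sum_open' {B : Type u} [CommRing B] [Algebra k B] {d1 d2 d : ℕ} (hd : d1 + d2 = d)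
    {b1 : Fin d1 → B} {b2 : Fin d2 → B}
    {b : Fin d → B} (c1 : Chart k b1 k) (c2 : Chart k b2 k)
    (c : Chart k b k) (hc : c.ker = c1.ker ⊓ c2.ker) (U : Set (HilbS k B d))
    (hU : IsOpen U) (hcU : chartι k (Idx.single b) (zp c) ∈ U) :
    ∃ V : Set (HilbS k B d1), IsOpen V ∧ chartι k (Idx.single b1) (zp c1) ∈ V ∧
      ∀ (b1' : Fin d1 → B) (c1' : Chart k b1' k), chartι k (Idx.single b1') (zp c1') ∈ V →
        c1'.ker ⊔ c2.ker = ⊤ ∧ ∀ (b' : Fin d → B) (c' : Chart k b' k),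
          c'.ker = c1'.ker ⊓ c2.ker → chartι k (Idx.single b') (zp c') ∈ U := by
  subst hd
  exact sum_open c1 c2 c hc U hU hcU

lemma exists_single {B : Type u} [CommRing B] [Algebra k B] {d : ℕ} (x : HilbS k B d) :
    ∃ (b : Fin d → B) (y : Spec (CommRingCat.of (AR k b))), chartι k (Idx.single b) y = x := by
  obtain ⟨L, y, rfl⟩ := chartι_surj k x
  obtain ⟨b, hb⟩ := L.ne
  have hL : L ≤ Idx.single b := by
    change (Idx.single b).s ⊆ L.s
    intro b' hb'
    have : b' = b := by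
      simpa [Idx.single] using hb'
    rw [this]
    exact hb
  refine ⟨b, Spec.map (CommRingCat.ofHom
      ((univ k (Idx.single b)).hom (univ k L).I (hasBas_of_le k hL)).toRingHom) y, ?_⟩
  have h1 := map_chartι k hL
  rw [← h1, Scheme.Hom.comp_apply]

lemma exists_point [IsAlgClosed k] {B : Type u} [CommRing B] [Algebra k B]
    [Algebra.FiniteType k B] {d : ℕ} (U : Set (HilbS k B d)) (hU : IsOpen U)
    (hne : U.Nonempty) :
    ∃ (b : Fin d → B) (c : Chart k b k), chartι k (Idx.single b) (zp c) ∈ U := by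
  obtain ⟨x, hx⟩ := hne
  obtain ⟨b, y, rfl⟩ := exists_single x
  have hft : Algebra.FiniteType k (AR k b) := univ_finiteType (k := k) (Idx.single b)
  have hJ : JacobsonSpace (PrimeSpectrum (AR k b)) :=
    PrimeSpectrum.isJacobsonRing_iff_jacobsonSpace.1 (isJacobsonRing_of_finiteType (A := k))
  have hV : IsOpen ((chartι k (Idx.single b)) ⁻¹' U) :=
    hU.preimage (chartι k (Idx.single b)).continuous
  obtain ⟨M, hMV, hMc⟩ := @nonempty_inter_closedPoints (PrimeSpectrum (AR k b)) _ hJ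
    ((chartι k (Idx.single b)) ⁻¹' U) ⟨y, hx⟩ hV.isLocallyClosed
  have hM : M.asIdeal.IsMaximal := (PrimeSpectrum.isClosed_singleton_iff_isMaximal M).1 hMc
  obtain ⟨g, hg⟩ := exists_hom_of_maximal (k := k) M.asIdeal hM
  refine ⟨b, (uc k b).map g, ?_⟩
  have h1 : clf (uc k b) = AlgHom.id k _ := by
    apply hom_ext_uc
    rw [uc_map_clf, Chart.map_id]
  have h2 : zp ((uc k b).map g) = M := by
    apply PrimeSpectrum.ext
    rw [zp_asIdeal, clf_map, h1, AlgHom.comp_id, hg]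
  rw [h2]
  exact hMV

/-- a component meets an open set in a `k`-point -/
lemma exists_point_in [IsAlgClosed k] {B : Type u} [CommRing B] [Algebra k B]
    [Algebra.FiniteType k B] {d : ℕ} (U : Set (HilbS k B d)) (hU : IsOpen U)
    (C : Set (HilbS k B d)) (hC : C ∈ irreducibleComponents (HilbS k B d))
    (hne : (C ∩ U).Nonempty) :
    ∃ f : PointsOver k (hilb k B d).H (hilb k B d).s k, Set.range f.1 ⊆ C ∩ U := by
  obtain ⟨x, hxC, hxU⟩ := hne
  obtain ⟨b, y, hy⟩ := exists_single x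
  have := noetherianSpace_chart (k := k) b
  set ψ := chartι k (Idx.single b) with hψ
  have hemb : Topology.IsOpenEmbedding ψ := ψ.isOpenEmbedding
  obtain ⟨O, hO, ⟨o, ho⟩, hOC⟩ := exists_open_subset_component ψ hemb C hC ⟨x, hxC, ⟨y, hy⟩⟩
  have hC' : IsIrreducible (ψ ⁻¹' C) := hC.1.preimage hemb ⟨x, hxC, ⟨y, hy⟩⟩
  have h1 : (ψ ⁻¹' C ∩ (O ∩ ψ ⁻¹' U)).Nonempty := by
    apply hC'.2 O (ψ ⁻¹' U) hO (hU.preimage ψ.continuous)
    · exact ⟨o, hOC ⟨o, ho, rfl⟩, ho⟩
    · refine ⟨y, ?_, ?_⟩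
      · rw [Set.mem_preimage, hy]; exact hxC
      · rw [Set.mem_preimage, hy]; exact hxU
  obtain ⟨w, hw1, hw2⟩ := h1
  obtain ⟨b', c', hc'⟩ := exists_point (ψ '' (O ∩ ψ ⁻¹' U))
    (hemb.isOpenMap _ (hO.inter (hU.preimage ψ.continuous))) ⟨ψ w, w, hw2, rfl⟩
  refine ⟨⟨mor c', mor_str c'⟩, ?_⟩
  rintro z hz
  have h3 := (mem_range_mor_iff c' z).1 hz
  rw [h3]
  obtain ⟨w', ⟨hw1', hw2'⟩, hw3'⟩ := hc'
  refine ⟨?_, ?_⟩
  · rw [← hw3']
    exact hOC ⟨w', hw1', rfl⟩
  · rw [← hw3']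
    exact hw2'

open MvPolynomial in
lemma exists_zero [IsAlgClosed k] {n : ℕ} (I : Ideal (MvPolynomial (Fin n) k)) (hI : I ≠ ⊤) :
    ∃ v : Fin n → k, ∀ f ∈ I, MvPolynomial.eval v f = 0 := by
  obtain ⟨M, hM, hle⟩ := Ideal.exists_le_maximal I hI
  obtain ⟨g, hg⟩ := exists_hom_of_maximal (k := k) M hM
  refine ⟨fun i => g (X i), fun f hf => ?_⟩
  have h1 : g = aeval (fun i => g (X i)) := by
    apply MvPolynomial.algHom_ext
    intro i
    simp
  have h2 : g f = 0 := by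
    rw [← RingHom.mem_ker, hg]
    exact hle hf
  rw [h1] at h2
  exact h2

open MvPolynomial in
/-- a scheme which is not supported at a point splits -/
lemma exists_split_of_not [IsAlgClosed k] {n d : ℕ} (hd : 0 < d)
    {b : Fin d → MvPolynomial (Fin n) k} (c : Chart k b k) (h : ¬ SupportedAtPoint c.ker) :
    ∃ J1 J2 : Ideal (MvPolynomial (Fin n) k), J1 ⊓ J2 = c.ker ∧ J1 ⊔ J2 = ⊤ ∧ J1 ≠ ⊤ ∧
      J2 ≠ ⊤ := by
  have hne : c.ker ≠ ⊤ := by
    intro h0
    have h1 : b ⟨0, hd⟩ ∈ c.ker := by rw [h0]; trivial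
    rw [Chart.mem_ker, c.q_b] at h1
    have := congrFun h1 ⟨0, hd⟩
    simp at this
  obtain ⟨v, hv⟩ := exists_zero c.ker hne
  have h2 : ∃ w : Fin n → k, (∀ f ∈ c.ker, MvPolynomial.eval w f = 0) ∧ w ≠ v := by
    by_contra hcon
    push Not at hcon
    exact h ⟨v, hv, fun w hw => hcon w hw⟩
  obtain ⟨w, hw, hwv⟩ := h2
  obtain ⟨i, hi⟩ := Function.ne_iff.1 hwv
  apply exists_split (k := k) c.ker (finite_ker c) (X i - C (v i))
  · intro h3
    have h4 : (1 : MvPolynomial (Fin n) k) ∈ RingHom.ker (eval v) := by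
      have : c.ker ⊔ Ideal.span {X i - C (v i)} ≤ RingHom.ker (eval v) := by
        apply sup_le
        · intro f hf
          exact hv f hf
        · rw [Ideal.span_singleton_le_iff_mem, RingHom.mem_ker]
          simp
      apply this
      rw [h3]
      trivial
    rw [RingHom.mem_ker, map_one] at h4
    exact one_ne_zero h4
  · intro m hm
    have h3 := hw _ hm
    rw [map_pow, map_sub, eval_X, eval_C] at h3
    exact pow_ne_zero m (sub_ne_zero.2 hi) h3

lemma finrank_pos_of_ne {B : Type u} [CommRing B] [Algebra k B] (J : Ideal B) (hJ : J ≠ ⊤)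
    (hf : Module.Finite k (B ⧸ J)) : 0 < Module.finrank k (B ⧸ J) := by
  have : Nontrivial (B ⧸ J) := Ideal.Quotient.nontrivial_iff.2 hJ
  exact Module.finrank_pos

theorem dense_small [IsAlgClosed k] {n R : ℕ}
    (hR : ∀ d, R < d → ∀ C, ¬ IsElementary (hilb k (MvPolynomial (Fin n) k) d) C) (d : ℕ) :
    ∀ U : Set (HilbS k (MvPolynomial (Fin n) k) d), IsOpen U → U.Nonempty →
      ∃ (b : Fin d → MvPolynomial (Fin n) k) (c : Chart k b k),
        Small k R c.ker ∧ chartι k (Idx.single b) (zp c) ∈ U := by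
  induction d using Nat.strong_induction_on with
  | _ d ih =>
  intro U hU hne
  by_cases hdR : d ≤ R
  · obtain ⟨b, c, hc⟩ := exists_point U hU hne
    refine ⟨b, c, small_of_le _ (finite_ker c) ?_, hc⟩
    rw [finrank_ker]
    exact hdR
  push Not at hdR
  obtain ⟨x, hx⟩ := hne
  have h1 := hR d hdR (irreducibleComponent x)
  have h2 : ∃ (b : Fin d → MvPolynomial (Fin n) k) (c : Chart k b k),
      ¬ SupportedAtPoint c.ker ∧ chartι k (Idx.single b) (zp c) ∈ U := by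
    by_contra hcon
    push Not at hcon
    apply h1
    refine ⟨irreducibleComponent_mem_irreducibleComponents x, U, hU,
      exists_point_in U hU _ (irreducibleComponent_mem_irreducibleComponents x)
        ⟨x, mem_irreducibleComponent, hx⟩, ?_⟩
    intro f hf
    by_contra hns
    obtain ⟨y⟩ : Nonempty (Spec (CommRingCat.of k)) := inferInstance
    have h3 : f.1 y ∈ (hilb k (MvPolynomial (Fin n) k) d).locus
        (fun I => ¬ SupportedAtPoint I) := ⟨f, ⟨y, rfl⟩, hns⟩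
    obtain ⟨b, c, hc, hr⟩ := exists_chart_of_mem_locus _ _ h3
    have hr' := (mem_range_mor_iff c _).1 hr
    exact hcon b c hc (hr' ▸ (hf ⟨y, rfl⟩).2)
  obtain ⟨b, c, hns, hcU⟩ := h2
  obtain ⟨J1, J2, hJ, htop, hJ1, hJ2⟩ := exists_split_of_not (by omega) c hns
  obtain ⟨f1, f2, hadd⟩ := finrank_add (k := k) (finite_ker c) hJ htop
  rw [finrank_ker] at hadd
  have hp1 := finrank_pos_of_ne (k := k) J1 hJ1 f1
  have hp2 := finrank_pos_of_ne (k := k) J2 hJ2 f2
  obtain ⟨b1, c1, hc1⟩ := exists_chart_of_ideal J1 f1 rfl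
  obtain ⟨b2, c2, hc2⟩ := exists_chart_of_ideal J2 f2 rfl
  obtain ⟨V1, hV1, hc1V, hV1'⟩ := sum_open' hadd c1 c2 c (by rw [hc1, hc2, hJ]) U hU hcU
  obtain ⟨b1', c1', hs1, hc1'⟩ := ih _ (by omega) V1 hV1 ⟨_, hc1V⟩
  obtain ⟨htop1, hU1⟩ := hV1' b1' c1' hc1'
  have hfinf : ∀ K1 K2 : Ideal (MvPolynomial (Fin n) k), Module.Finite k (_ ⧸ K1) →
      Module.Finite k (_ ⧸ K2) → Module.Finite k (MvPolynomial (Fin n) k ⧸ (K1 ⊓ K2)) := by
    intro K1 K2 g1 g2
    let φ : (MvPolynomial (Fin n) k ⧸ (K1 ⊓ K2)) →ₗ[k]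
        ((MvPolynomial (Fin n) k ⧸ K1) × (MvPolynomial (Fin n) k ⧸ K2)) :=
      LinearMap.prod (Ideal.Quotient.factorₐ k (inf_le_left : K1 ⊓ K2 ≤ K1)).toLinearMap
        (Ideal.Quotient.factorₐ k (inf_le_right : K1 ⊓ K2 ≤ K2)).toLinearMap
    have hφ : ∀ y, φ (Ideal.Quotient.mk _ y) =
      (Ideal.Quotient.mk K1 y, Ideal.Quotient.mk K2 y) := fun y => rfl
    have hinj : Function.Injective φ := by
      rw [injective_iff_map_eq_zero]
      intro y hy
      obtain ⟨y, rfl⟩ := Ideal.Quotient.mk_surjective y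
      rw [hφ, Prod.mk_eq_zero, Ideal.Quotient.eq_zero_iff_mem,
        Ideal.Quotient.eq_zero_iff_mem] at hy
      exact Ideal.Quotient.eq_zero_iff_mem.2 hy
    exact Module.Finite.of_injective φ hinj
  have g1 := hfinf c1'.ker c2.ker (finite_ker c1') (finite_ker c2)
  obtain ⟨-, -, hadd1⟩ := finrank_add (k := k) g1 rfl htop1
  rw [finrank_ker, finrank_ker, hadd] at hadd1
  obtain ⟨b3, c3, hc3⟩ := exists_chart_of_ideal (c1'.ker ⊓ c2.ker) g1 hadd1.symm
  have hc3U := hU1 b3 c3 hc3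
  obtain ⟨V2, hV2, hc2V, hV2'⟩ := sum_open' ((add_comm _ _).trans hadd) c2 c1' c3
    (by rw [hc3, inf_comm]) U hU hc3U
  obtain ⟨b2', c2', hs2, hc2'⟩ := ih _ (by omega) V2 hV2 ⟨_, hc2V⟩
  obtain ⟨htop2, hU2⟩ := hV2' b2' c2' hc2'
  have g2 := hfinf c2'.ker c1'.ker (finite_ker c2') (finite_ker c1')
  obtain ⟨-, -, hadd2⟩ := finrank_add (k := k) g2 rfl htop2
  rw [finrank_ker, finrank_ker, add_comm, hadd] at hadd2
  obtain ⟨b4, c4, hc4⟩ := exists_chart_of_ideal (c2'.ker ⊓ c1'.ker) g2 hadd2.symm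
  refine ⟨b4, c4, ?_, hU2 b4 c4 hc4⟩
  rw [hc4]
  exact small_inf hs2 hs1 htop2

/-- if there are no elementary components of large length, then the dimensions of all components
are bounded linearly -/
theorem topDim_le [IsAlgClosed k] {n R : ℕ}
    (hR : ∀ d, R < d → ∀ C, ¬ IsElementary (hilb k (MvPolynomial (Fin n) k) d) C) (d : ℕ)
    (C : Set (HilbS k (MvPolynomial (Fin n) k) d)) (hC : IsIrreducible C)
    : topologicalKrullDim C ≤ (((n * R + 1) * d : ℕ) : WithBot ℕ∞) := by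
  obtain ⟨x, hx⟩ := hC.1
  obtain ⟨Z, hZ, hCZ⟩ := exists_preirreducible C hC.2
  have hZc : Z ∈ irreducibleComponents (HilbS k (MvPolynomial (Fin n) k) d) := by
    refine ⟨⟨⟨x, hCZ.1 hx⟩, hZ⟩, ?_⟩
    intro Y hY hZY
    exact (hCZ.2 Y hY.2 hZY).le
  obtain ⟨b, y, hy⟩ := exists_single x
  have := noetherianSpace_chart (k := k) b
  obtain ⟨O, hO, hOne, hOC⟩ := exists_open_subset_component (chartι k (Idx.single b))
    (chartι k (Idx.single b)).isOpenEmbedding Z hZc ⟨x, hCZ.1 hx, ⟨y, hy⟩⟩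
  obtain ⟨b', c, hs, hcO⟩ := dense_small hR d ((chartι k (Idx.single b)) '' O)
    ((chartι k (Idx.single b)).isOpenEmbedding.isOpenMap O hO) (hOne.image _)
  have h1 : topologicalKrullDim C ≤ topologicalKrullDim Z :=
    (Topology.IsEmbedding.inclusion hCZ.1).isInducing.topologicalKrullDim_le
  refine h1.trans ?_
  have h2 := topDim_le_stalk (HilbS k (MvPolynomial (Fin n) k) d)
    (HilbS.str k (MvPolynomial (Fin n) k) d) Z (isClosed_of_mem_irreducibleComponents Z hZc)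
    hZc.1 _ (hOC hcO) (isClosed_chartι_zp c)
  exact h2.trans (small_stalk_le c hs)

end Pool.Agent.Q84.Elem
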