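import Mathlib
import Pool.Agent.Q84.Elem.Dense
import Pool.Agent.Y97.VC3.Inst
import Pool.Agent.Helper413.Gal.Uniq

/-! Infinitely many elementary components in dimension three. -/

set_option autoImplicit false

open scoped TensorProduct
open CategoryTheory AlgebraicGeometry

universe u

namespace Pool.Agent.Q84.Elem

open Pool.Agent.Helper226 Pool.Agent.Y97.VC3

lemma numeric (R t : ℕ) (ht : t = 5 * (3 * R + 1)) :
    (3 * R + 1) * ((2 * t + 2).choose 3 + t ^ 2) <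
      ((2 * t + 2).choose 2 - t ^ 2) * t ^ 2 := by
  have e1 : (2 * t + 2).choose 3 * 3 = (2 * t + 2).choose 2 * (2 * t) := by
    have := Nat.choose_succ_right_eq (2 * t + 2) 2
    simpa using this
  have e2 : (2 * t + 2).choose 2 * 2 = (2 * t + 2) * (2 * t + 1) := by
    have := Nat.choose_succ_right_eq (2 * t + 2) 1
    simpa using this
  have e3 : (2 * t + 2).choose 2 = (t ^ 2 + 3 * t + 1) + t ^ 2 := by nlinarith
  rw [e3, Nat.add_sub_cancel]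
  rw [e3] at e1
  set c := (2 * t + 2).choose 3 with hc
  have h3 : 3 * (c + t ^ 2) = 4 * t ^ 3 + 9 * t ^ 2 + 2 * t := by nlinarith
  have h1 : 1 ≤ t := by omega
  have h5 : c + t ^ 2 ≤ 5 * t ^ 3 := by nlinarith [Nat.pow_le_pow_left h1 2, sq_nonneg (t : ℤ)]
  calc (3 * R + 1) * (c + t ^ 2) ≤ (3 * R + 1) * (5 * t ^ 3) := Nat.mul_le_mul_left _ h5
    _ = t ^ 4 := by rw [ht]; ring
    _ < (t ^ 2 + 3 * t + 1) * t ^ 2 := by nlinarith

theorem main_hilb (k : Type u) [Field k] [IsAlgClosed k] (R : ℕ) :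
    ∃ d, R < d ∧ ∃ C, IsElementary (hilb k (MvPolynomial (Fin 3) k) d) C := by
  by_contra hcon
  push Not at hcon
  obtain ⟨t, ht⟩ : ∃ t, t = 5 * (3 * R + 1) := ⟨_, rfl⟩
  have h4 : 4 * t ^ 2 ≤ (2 * t) ^ 2 := by nlinarith
  obtain ⟨T, hT, hTr⟩ := Finset.exists_subset_card_eq (le_card_Od (2 * t) (t ^ 2) h4)
  have hd : (2 * t + 2).choose 3 + T.card = (2 * t + 2).choose 3 + t ^ 2 := by rw [hTr]
  have hz := DD_z hT hd (by omega)
  have h1 := famCl_dim (DD hT hd) k 2 hz (by omega)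
  have h2 := topDim_le (n := 3) hcon _ _ (famCl_irreducible (DD hT hd) k 2 hz (by omega))
  have h3 := h1.trans h2
  have h5 : Fintype.card (NI (DD hT hd)) * Fintype.card (EI (DD hT hd)) ≤
      (3 * R + 1) * ((2 * t + 2).choose 3 + t ^ 2) := by exact_mod_cast h3
  have h6 := card_NI (DD hT hd) (by norm_num)
  have h7 := card_EI hT hd
  have h8 : (2 * t + 3 - 1).choose (3 - 1) = (2 * t + 2).choose 2 := rfl
  rw [h8, h7, hTr] at h6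
  have h9 : Fintype.card (NI (DD hT hd)) = (2 * t + 2).choose 2 - t ^ 2 := by omega
  rw [h9, h7, hTr] at h5
  have h10 := numeric R t ht
  omega

open Pool.Agent.Helper413.Gal

variable {k : Type u} [Field k] {n d : ℕ}

lemma image_eq {X Y : Scheme.{u}} (e : X ≅ Y) (Z : Set X) : e.hom '' Z = e.inv ⁻¹' Z := by
  ext y
  constructor
  · rintro ⟨x, hx, rfl⟩
    have : e.inv (e.hom x) = x := by
      rw [← Scheme.Hom.comp_apply, Iso.hom_inv_id]; rfl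
    rw [Set.mem_preimage, this]
    exact hx
  · intro hy
    refine ⟨_, hy, ?_⟩
    rw [← Scheme.Hom.comp_apply, Iso.inv_hom_id]; rfl

lemma image_comp {X Y : Scheme.{u}} (e : X ≅ Y) (Z : Set X)
    (hZ : Z ∈ irreducibleComponents X) : e.hom '' Z ∈ irreducibleComponents Y := by
  rw [image_eq]
  refine preimage_mem_irreducibleComponents hZ e.inv.isOpenEmbedding ?_
  obtain ⟨z, hz⟩ := hZ.1.1
  refine ⟨z, hz, e.hom z, ?_⟩
  rw [← Scheme.Hom.comp_apply, Iso.hom_inv_id]; rfl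

lemma range_subset_of_tr (𝓗₁ 𝓗₂ : HilbertScheme k (MvPolynomial (Fin n) k) d)
    (C U : Set 𝓗₁.H) (f : PointsOver k 𝓗₂.H 𝓗₂.s k)
    (hf : Set.range f.1 ⊆ (tiso 𝓗₁ 𝓗₂).hom '' C ∩ (tiso 𝓗₁ 𝓗₂).hom '' U) :
    Set.range (tr 𝓗₂ 𝓗₁ k f).1 ⊆ C ∩ U := by
  rintro _ ⟨y, rfl⟩
  have h2 := hf ⟨y, rfl⟩
  rw [image_eq, image_eq] at h2
  have h3 : (tr 𝓗₂ 𝓗₁ k f).1 y = (tiso 𝓗₁ 𝓗₂).inv (f.1 y) := by
    rw [tr_val, Scheme.Hom.comp_apply]
    rfl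
  rw [h3]
  exact h2

theorem isElementary_transfer (𝓗₁ 𝓗₂ : HilbertScheme k (MvPolynomial (Fin n) k) d)
    (C : Set 𝓗₁.H) (h : IsElementary 𝓗₁ C) : IsElementary 𝓗₂ ((tiso 𝓗₁ 𝓗₂).hom '' C) := by
  obtain ⟨hC, U, hU, ⟨f0, hf0⟩, hs⟩ := h
  refine ⟨image_comp _ C hC, (tiso 𝓗₁ 𝓗₂).hom '' U, ?_, ?_, ?_⟩
  · rw [image_eq]
    exact hU.preimage (tiso 𝓗₁ 𝓗₂).inv.continuous
  · refine ⟨tr 𝓗₁ 𝓗₂ k f0, ?_⟩
    rintro _ ⟨y, rfl⟩
    have h3 : (tr 𝓗₁ 𝓗₂ k f0).1 y = (tiso 𝓗₁ 𝓗₂).hom (f0.1 y) := by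
      rw [tr_val, Scheme.Hom.comp_apply]
      rfl
    rw [h3]
    exact ⟨⟨_, (hf0 ⟨y, rfl⟩).1, rfl⟩, ⟨_, (hf0 ⟨y, rfl⟩).2, rfl⟩⟩
  · intro f hf
    have h1 := hs (tr 𝓗₂ 𝓗₁ k f) (range_subset_of_tr 𝓗₁ 𝓗₂ C U f hf)
    unfold HilbertScheme.idealOf at h1 ⊢
    rw [Φ_tr] at h1
    exact h1

end Pool.Agent.Q84.Elem
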